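import Pool.Agent.Helper11.LE.Goals3
import Pool.Agent.Helper35.RD.RSP
import Pool.Agent.Helper32.RD.KUM

/-!
# Project LE, packet FCNT: infinitely many extensions
-/

namespace Pool.Agent.Helper86.LE

open NumberField Polynomial Module IsDedekindDomain Pool.Agent.Helper51.RP Pool.Agent.Helper42.RD
open Pool.Agent.Helper11.LE
open Pool.Agent.Helper35.RD (badp badp_finite not_pow_of_not_dvd)

theorem omType_map {p : ℕ} {K M M' : Type} [Field K] [Field M] [Field M'] [Algebra K M]
    [Algebra K M'] (e : M ≃ₐ[K] M') {ε a : M} (h : OmType p K ε a) : OmType p K (e ε) (e a) := by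
  intro τ
  obtain ⟨n, c, h1, h2⟩ := h ((e.trans τ).trans e.symm)
  refine ⟨n, e c, ?_, ?_⟩
  · have h3 : e (e.symm (τ (e ε))) = e (ε ^ n) := congrArg e h1
    rwa [AlgEquiv.apply_symm_apply, map_pow] at h3
  · have h3 : e (e.symm (τ (e a))) = e (a ^ n * c ^ p) := congrArg e h2
    rwa [AlgEquiv.apply_symm_apply, map_mul, map_pow, map_pow] at h3

/-- `K₁` is generated by `ε`. -/
theorem adjoin_eq_top {p : ℕ} {K K₁ : Type} [Field K] [Field K₁] [Algebra K K₁]
    [FiniteDimensional K K₁] {ε : K₁} (hC : Cyc p K K₁ ε) :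
    IntermediateField.adjoin K {ε} = ⊤ := by
  have := hC.gal
  set F : IntermediateField K K₁ := IntermediateField.adjoin K {ε} with hF
  have h1 : F.fixingSubgroup = ⊥ := by
    rw [eq_bot_iff]
    intro g hg
    rw [Subgroup.mem_bot]
    apply hC.gen
    rw [IntermediateField.mem_fixingSubgroup_iff] at hg
    exact hg ε (IntermediateField.mem_adjoin_simple_self K ε)
  rw [← IsGalois.fixedField_fixingSubgroup F, h1, IntermediateField.fixedField_bot]

theorem f_cnt (_h1 : L_CYC) : Pool.Agent.Helper11.LE.F_CNT := by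
  intro p hpF K K₁ _ _ _ _ _ ε hC j hj X hX
  have hp : p.Prime := hpF.out
  have hfd : FiniteDimensional K K₁ := Module.Finite.of_restrictScalars_finite ℚ K K₁
  let jA : K₁ →ₐ[K] AlgebraicClosure K := { j with commutes' := hj }
  have hjA : ∀ x, jA x = j x := fun _ => rfl
  set K₁' : IntermediateField K (AlgebraicClosure K) := IntermediateField.adjoin K {j ε} with hK₁'
  have hrange : jA.fieldRange = K₁' := by
    rw [AlgHom.fieldRange_eq_map, ← adjoin_eq_top hC, IntermediateField.adjoin_map,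
      Set.image_singleton, hjA]
  let e : K₁ ≃ₐ[K] K₁' :=
    (AlgEquiv.ofInjectiveField jA).trans (IntermediateField.equivOfEq hrange)
  have he : ∀ x, ((e x : K₁') : AlgebraicClosure K) = j x := fun _ => rfl
  have hfd' : FiniteDimensional K K₁' := e.toLinearEquiv.finiteDimensional
  have hε₁ : IsPrimitiveRoot (e ε) p := hC.prim.map_of_injective e.injective
  have hεj : IsPrimitiveRoot (j ε) p := hC.prim.map_of_injective j.injective
  let _ : Algebra K₁' K₁ := (e.symm : K₁' →+* K₁).toAlgebra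
  have halg : ∀ y : K₁', algebraMap K₁' K₁ y = e.symm y := fun _ => rfl
  intro hfin
  have hB := hfin.biUnion fun N hN => badp_finite hp K₁' N hN.1 (e ε) hε₁ K₁
  set B := ⋃ N ∈ {N : IntermediateField K (AlgebraicClosure K) |
    finrank K N = p ∧ IsGalois K N ∧ X N}, badp p K₁' N K₁ with hBdef
  set Z : Set (HeightOneSpectrum (𝓞 K)) := ⋃ W ∈ B, {w | Above W w} with hZdef
  have hZ : Z.Finite := by
    refine hB.biUnion fun W _ => Set.Subsingleton.finite ?_
    intro w hw w' hw'
    have h1 : w.asIdeal = w'.asIdeal := hw.symm.trans hw'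
    exact HeightOneSpectrum.ext h1
  obtain ⟨a, ha0, haom, ⟨W, w, hWw, hwZ, hWd⟩, hXN⟩ := hX Z hZ
  have hnp : ∀ y : K₁, y ^ p ≠ (a : K₁) := not_pow_of_not_dvd hp W hWd
  have hnp' : ∀ y : K₁', y ^ p ≠ e (a : K₁) := by
    intro y hy
    apply hnp (e.symm y)
    rw [← map_pow, hy, AlgEquiv.symm_apply_apply]
  obtain ⟨N, hNp, hNg, hNs⟩ := Pool.Agent.Helper32.RD.e_kum p K (j ε) hεj (e ε) (e (a : K₁))
    (he ε) (omType_map e haom) (by
      rintro ⟨y, hy⟩
      exact hnp' y hy)
  obtain ⟨s, hs⟩ := IsAlgClosed.exists_pow_nat_eq (j (a : K₁)) (n := p) hp.pos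
  have hs' : s ^ p = ((e (a : K₁) : K₁') : AlgebraicClosure K) := by rw [he]; exact hs
  have hsN : s ∈ N ⊔ K₁' := hNs s hs'
  apply hwZ
  refine Set.mem_biUnion (x := W) ?_ hWw
  refine Set.mem_biUnion (x := N) ?_ ⟨e (a : K₁), hnp', ⟨s, hs', hsN⟩, ?_⟩
  · refine ⟨hNp, hNg, ?_⟩
    refine hXN s hs ?_ N hNp hNg ?_
    · rintro ⟨y, hy⟩
      apply hnp y
      apply j.injective
      rw [map_pow, hy, hs]
    · intro g g1 g2
      have hle : (N ⊔ K₁').toSubalgebra ≤
          AlgHom.equalizer (g : AlgebraicClosure K →ₐ[K] AlgebraicClosure K) (AlgHom.id K _) := by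
        rw [IntermediateField.sup_toSubalgebra_of_right]
        refine sup_le ?_ ?_
        · intro y hy
          exact g1 y hy
        · intro y hy
          have h2 := g2 (e.symm ⟨y, hy⟩)
          rw [← he, AlgEquiv.apply_symm_apply] at h2
          exact h2
      exact hle hsN
  · rw [halg, AlgEquiv.symm_apply_apply]
    exact hWd

end Pool.Agent.Helper86.LE
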