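import Pool.Agent.Helper11.LE.Goals1
import Pool.Agent.Helper13.RD.MAT
import Pool.Agent.Helper40.RD.TRF

/-!
# Project LE, packet MAT
-/

namespace Pool.Agent.Helper86.LE

open NumberField Polynomial Module IsDedekindDomain Pool.Agent.Helper51.RP Pool.Agent.Helper42.RD
open Pool.Agent.Helper11.LE
open Pool.Agent.Helper13.RD (val_of_one one_mul_one one_inv_one one_pow_one)

theorem freeP_self {K : Type} [Field K] [NumberField K] (w : HeightOneSpectrum (𝓞 K)) :
    FreeP K w := by
  intro g _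
  ext y
  exact g.commutes y

theorem l_mat (h1 : L_CYC) : Pool.Agent.Helper11.LE.L_MAT := by
  intro p hp K K₁ _ _ _ _ _ ε hC R al a hS x hx0 hx w
  have hp' : p.Prime := hp.out
  have hgal := hC.gal
  have hcop : (finrank K K₁).Coprime p := (h1 p K K₁ ε hC).2.1
  have h2 := Pool.Agent.Helper40.RD.e_trf
  have hM := hS.mat
  have hR := hS.dat
  refine ⟨fun hw => ?_, fun hw => ?_⟩
  · obtain ⟨W, hW⟩ := Pool.Agent.Helper42.RS.exists_above (M := K) (H := K₁) w
    have hab : Above W w := hW.over.symm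
    have h3 : (p : ℤ) ∣ ordv W (a : K₁) := hM.free W w hab (freeP_self w) hw
    have h4 := (hx W).1 h3
    exact ((h2 p K K₁ hcop W w hab).1 _).1 h4
  · obtain ⟨W, hW, hWa, j, z, hz⟩ := hM.ram w hw
    obtain ⟨i, y, hy⟩ := (hx W).2 hWa
    refine ⟨(p - 1) * (i * j), ?_⟩
    apply ((h2 p K K₁ hcop W w hW).2 _).1
    set A : K₁ := (-1) ^ (p - 1) * (a : K₁) with hA
    set α : K₁ := algebraMap K K₁ (algebraMap K K (al w)) with hα
    have hal0 : algebraMap K K (al w) ≠ 0 := by
      intro h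
      have h3 := hR.unif w hw
      rw [h] at h3
      unfold ordv at h3
      rw [map_zero, WithZero.log_zero] at h3
      norm_num at h3
    have hα0 : α ≠ 0 := fun h => hal0 ((map_eq_zero _).1 h)
    have hv0 : A * α ^ j * z ^ p ≠ 0 := by
      intro h
      have h3 := val_of_one hz
      rw [h, map_zero] at h3
      exact zero_ne_one h3
    have hA0 : A ≠ 0 := left_ne_zero_of_mul (left_ne_zero_of_mul hv0)
    have hz0 : z ≠ 0 := by
      rintro rfl
      apply hv0
      rw [zero_pow hp'.ne_zero, mul_zero]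
    refine ⟨y * (z ^ i)⁻¹ * (α ^ (i * j))⁻¹, ?_⟩
    have h3 := one_mul_one hy (one_inv_one (one_pow_one hz i))
    have h4 : algebraMap K K₁ (x * algebraMap K K (al w) ^ ((p - 1) * (i * j))) *
        (y * (z ^ i)⁻¹ * (α ^ (i * j))⁻¹) ^ p =
        algebraMap K K₁ x * A ^ i * y ^ p * ((A * α ^ j * z ^ p) ^ i)⁻¹ := by
      rw [map_mul, map_pow, ← hα]
      have e1 : α ^ ((p - 1) * (i * j)) = (α ^ (i * j)) ^ (p - 1) := by
        rw [← pow_mul, mul_comm]
      have e2 : (A * α ^ j * z ^ p) ^ i = A ^ i * α ^ (i * j) * (z ^ i) ^ p := by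
        rw [mul_pow, mul_pow, ← pow_mul, ← pow_mul, ← pow_mul, mul_comm j i, mul_comm p i]
      have e3 : (α ^ (i * j)) ^ p = (α ^ (i * j)) ^ (p - 1) * α ^ (i * j) := by
        rw [← pow_succ]
        congr 1
        have := hp'.pos
        omega
      rw [e1, e2, mul_pow, mul_pow, inv_pow, inv_pow, e3]
      have hB : α ^ (i * j) ≠ 0 := pow_ne_zero _ hα0
      have hBp : (α ^ (i * j)) ^ (p - 1) ≠ 0 := pow_ne_zero _ hB
      have hZ : (z ^ i) ^ p ≠ 0 := pow_ne_zero _ (pow_ne_zero _ hz0)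
      have hAi : A ^ i ≠ 0 := pow_ne_zero _ hA0
      generalize (α ^ (i * j)) ^ (p - 1) = B' at *
      generalize α ^ (i * j) = B at *
      generalize (z ^ i) ^ p = Z at *
      generalize A ^ i = Ai at *
      field_simp
    rw [h4]
    exact h3

end Pool.Agent.Helper86.LE
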